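import Pool.Agent.Helper15_SIQ.Stmts

/-!
# MP_021b97_an, Q1: module EXI
-/

set_option autoImplicit false

open MeasureTheory Filter Topology

namespace Pool.Agent.SIQ.H4E

open Pool.Agent.SIU Pool.Agent.SIQ

/-! ### products of functions and constant forms -/

/-- `f a` -/
noncomputable def mulF {A : Type} [AddCommGroup A] [Module ℝ A] [TopologicalSpace A] [ContinuousSMul ℝ A]
    (f : C(M1, ℝ)) (a : A) : C(M1, A) :=
  ⟨fun w => f w • a, f.continuous.smul continuous_const⟩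

theorem mulF_apply {A : Type} [AddCommGroup A] [Module ℝ A] [TopologicalSpace A]
    [ContinuousSMul ℝ A] (f : C(M1, ℝ)) (a : A) (w : M1) : mulF f a w = f w • a := rfl

section normed

variable {A : Type} [NormedAddCommGroup A] [NormedSpace ℝ A]

theorem norm_mulF_le (f : C(M1, ℝ)) (a : A) : ‖mulF f a‖ ≤ ‖f‖ * ‖a‖ := by
  rw [ContinuousMap.norm_le _ (by positivity)]
  intro w
  rw [mulF_apply, norm_smul]
  exact mul_le_mul_of_nonneg_right (f.norm_coe_le_norm w) (norm_nonneg _)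

/-- `(f, a) ↦ f a` -/
noncomputable def mulB (A : Type) [NormedAddCommGroup A] [NormedSpace ℝ A] :
    C(M1, ℝ) →L[ℝ] A →L[ℝ] C(M1, A) :=
  LinearMap.mkContinuous₂
    (LinearMap.mk₂ ℝ (fun (f : C(M1, ℝ)) (a : A) => mulF f a)
      (fun f g ψ => by ext1 w; exact add_smul (f w) (g w) ψ)
      (fun c f ψ => by ext1 w; exact mul_smul c (f w) ψ)
      (fun f ψ φ => by ext1 w; exact smul_add (f w) ψ φ)
      (fun c f ψ => by ext1 w; exact smul_comm (f w) c ψ)) 1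
    (fun f ψ => by
      rw [one_mul]
      exact norm_mulF_le f ψ)

theorem mulB_eq (f : C(M1, ℝ)) (a : A) : mulB A f a = mulF f a := rfl

/-- `f ↦ (v ↦ T (f • D v))` -/
theorem exists_phi {k : ℕ} (D : C3 [⋀^Fin k]→L[ℝ] A) (T : C(M1, A) → ℝ)
    (hadd : ∀ x y, T (x + y) = T x + T y) (hsmul : ∀ (c : ℝ) x, T (c • x) = c * T x)
    (hcont : Continuous T) : ∃ P : C(M1, ℝ) →L[ℝ] (C3 [⋀^Fin k]→L[ℝ] ℝ),
      ∀ f v, P f v = T (mulF f (D v)) := by
  let Tt : C(M1, A) →L[ℝ] ℝ := ⟨⟨⟨T, hadd⟩, hsmul⟩, hcont⟩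
  exact ⟨LinearMap.mkContinuous
    { toFun := fun f => (Tt.comp (mulB A f)).compContinuousAlternatingMap D
      map_add' := fun f g => by
        ext v
        show Tt (mulB A (f + g) (D v)) = Tt (mulB A f (D v)) + Tt (mulB A g (D v))
        rw [map_add, add_apply, map_add]
      map_smul' := fun c f => by
        ext v
        show Tt (mulB A (c • f) (D v)) = c • Tt (mulB A f (D v))
        rw [map_smul, smul_apply, map_smul] }
    (‖Tt‖ * ‖D‖)
    (fun f => by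
      refine ContinuousAlternatingMap.opNorm_le_bound _ (by positivity) fun v => ?_
      show ‖Tt (mulF f (D v))‖ ≤ ‖Tt‖ * ‖D‖ * ‖f‖ * ∏ i, ‖v i‖
      have h1 : ‖Tt (mulF f (D v))‖ ≤ ‖Tt‖ * ‖mulF f (D v)‖ := Tt.le_opNorm _
      have h2 := norm_mulF_le f (D v)
      have h3 : ‖D v‖ ≤ ‖D‖ * ∏ i, ‖v i‖ := D.le_opNorm v
      calc ‖Tt (mulF f (D v))‖ ≤ ‖Tt‖ * ‖mulF f (D v)‖ := h1
        _ ≤ ‖Tt‖ * (‖f‖ * ‖D v‖) := by gcongr
        _ ≤ ‖Tt‖ * (‖f‖ * (‖D‖ * ∏ i, ‖v i‖)) := by gcongr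
        _ = ‖Tt‖ * ‖D‖ * ‖f‖ * ∏ i, ‖v i‖ := by ring), fun f v => rfl⟩

end normed

/-! ### equivariance -/

theorem rip_act_left (c : C3) (h w : E6) (i : Fin 3) :
    rip (X1.act c h) w i = (c i * (h (lo i) * (starRingEnd ℂ) (w (lo i)) +
      h (hi i) * (starRingEnd ℂ) (w (hi i)))).re := by
  unfold rip
  rw [act1_lo, act1_hi]
  congr 1
  ring

theorem rip_act_right (c : C3) (h w : E6) (i : Fin 3) :
    rip h (X1.act c w) i = ((starRingEnd ℂ) (c i) * (h (lo i) * (starRingEnd ℂ) (w (lo i)) +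
      h (hi i) * (starRingEnd ℂ) (w (hi i)))).re := by
  unfold rip
  rw [act1_lo, act1_hi, map_mul, map_mul]
  congr 1
  ring

/-- the phases -/
noncomputable def ph (c : C3) : C3 := fun j => (starRingEnd ℂ) (c j) / (‖c j‖ : ℂ)

theorem norm_ph {c : C3} (hc : ∀ j, c j ≠ 0) (j : Fin 3) : ‖ph c j‖ = 1 := by
  unfold ph
  rw [norm_div, Complex.norm_conj, Complex.norm_real, norm_norm]
  exact div_self (norm_ne_zero_iff.mpr (hc j))

theorem ph_sq {c : C3} (hc : ∀ j, c j ≠ 0) (j : Fin 3) :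
    ph c j ^ 2 = (starRingEnd ℂ) (c j) / c j := by
  unfold ph
  have h1 : c j * (starRingEnd ℂ) (c j) = (‖c j‖ : ℂ) ^ 2 := Complex.mul_conj' _
  have h2 : (‖c j‖ : ℂ) ≠ 0 := by
    exact_mod_cast norm_ne_zero_iff.mpr (hc j)
  have h3 := hc j
  rw [div_pow, ← h1]
  have h4 : (starRingEnd ℂ) (c j) ≠ 0 := (map_ne_zero _).mpr h3
  field_simp

theorem Gk_act (δ : Fin 3 → ℝ) {c : C3} (hc : ∀ j, c j ≠ 0) (h w : E6) :
    Gk δ (X1.act c h) w = Gk δ h (X1.act (ph c) w) := by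
  unfold Gk
  refine Finset.prod_congr rfl fun i _ => ?_
  congr 1
  rw [rip_act_left, rip_act_right, nn_act, Real.sqrt_mul (by positivity),
    Real.sqrt_sq (norm_nonneg _)]
  have hcn : ‖c i‖ ≠ 0 := norm_ne_zero_iff.mpr (hc i)
  have h1 : (starRingEnd ℂ) (ph c i) = ((‖c i‖⁻¹ : ℝ) : ℂ) * c i := by
    unfold ph
    rw [map_div₀, Complex.conj_conj, Complex.conj_ofReal]
    push_cast
    field_simp
  rw [h1, mul_assoc, Complex.re_ofReal_mul]
  rw [mul_comm ‖c i‖, ← div_div, inv_mul_eq_div, div_right_comm]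

theorem act_mem_M1 {c : C3} (hc : ∀ j, ‖c j‖ = 1) {w : E6} (hw : w ∈ M1) :
    X1.act c w ∈ M1 := by
  intro i
  rw [nn_act, hc, hw i]
  norm_num

theorem cmp_congr {k : ℕ} {β β' : E6 → Alt 6 k} {z : E6} (h : β z = β' z) :
    cmp β z = cmp β' z := by
  unfold cmp
  rw [h]

theorem cmp_cont (hcpt : CptStmt) {k : ℕ} {β : E6 → Alt 6 k} (hβ : ContinuousOn β X1.U) :
    ContinuousOn (cmp β) X1.U := by
  have h := hcpt.2.2.1 k 0 β (by exact_mod_cast contDiffOn_zero.mpr hβ)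
  exact contDiffOn_zero.mp (by exact_mod_cast h)

theorem vol_restrict (hqum : QumStmt) : (volume : Measure E6).restrict X1.U = volume := by
  apply Measure.restrict_eq_self_of_ae_mem
  rw [ae_iff]
  exact hqum.2.2.2.2.2.1

theorem ae_mem_U (hqum : QumStmt) : ∀ᵐ z : E6, z ∈ X1.U := by
  rw [ae_iff]
  exact hqum.2.2.2.2.2.1

theorem Gk_nonneg (δ : Fin 3 → ℝ) (h w : E6) : 0 ≤ Gk δ h w :=
  Finset.prod_nonneg fun _ _ => th_nonneg _ _

theorem Gk_le_one (δ : Fin 3 → ℝ) (h w : E6) : Gk δ h w ≤ 1 :=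
  Finset.prod_le_one (fun _ _ => th_nonneg _ _) fun _ _ => th_le_one _ _

theorem qm_cq (hqua : QuaStmt) {w : E6} (hw : w ∈ M1) (g : E6) : qm (qm g w) (cq w) = g := by
  obtain ⟨_, _, h3, _, h5, _, h7, _⟩ := hqua
  have h1 : qm w (cq w) = one6 := by
    have h := h7 w one6
    rw [(h5 (cq w)).2] at h
    rw [h]
    have h8 : (fun i => (nn w i : ℂ)) = fun _ => (1 : ℂ) := by
      funext i
      rw [hw i]
      norm_num
    rw [h8, act1_one]
  rw [← h3, h1, (h5 g).2]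

theorem continuous_expnn : Continuous fun z : E6 => Real.exp (-∑ i, nn z i) := by
  have h : Continuous fun z : E6 => ∑ i, nn z i :=
    continuous_finsetSum _ fun i _ => continuous_nn i
  exact Real.continuous_exp.comp h.neg

theorem norm_GG_le {δ : Fin 3 → ℝ} {GG : E6 → C(M1, ℝ)}
    (hGG : ∀ z ∈ X1.U, ∀ w : M1, GG z w = Gk δ z w) {z : E6} (hz : z ∈ X1.U) : ‖GG z‖ ≤ 1 := by
  rw [ContinuousMap.norm_le _ zero_le_one]
  intro w
  rw [hGG z hz w, Real.norm_eq_abs, abs_of_nonneg (Gk_nonneg _ _ _)]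
  exact Gk_le_one _ _ _

/-! ### the integral, with values in an abstract space -/

section core

variable {A : Type} [NormedAddCommGroup A] [NormedSpace ℝ A] [CompleteSpace A]

/-- the integrand -/
noncomputable def II (GG : E6 → C(M1, ℝ)) (b : E6 → A) (z : E6) : C(M1, A) :=
  Real.exp (-∑ i, nn z i) • mulF (GG z) (b z)

theorem II_apply (GG : E6 → C(M1, ℝ)) (b : E6 → A) (z : E6) (w : M1) :
    II GG b z w = Real.exp (-∑ i, nn z i) • (GG z w • b z) := rfl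

theorem II_integrable (hqum : QumStmt) {δ : Fin 3 → ℝ}
    {GG : E6 → C(M1, ℝ)} (hGG : ∀ z ∈ X1.U, ∀ w : M1, GG z w = Gk δ z w)
    (hGc : ContinuousOn GG X1.U) {b : E6 → A} (hb : ContinuousOn b X1.U)
    (hbn : ∀ z ∈ X1.U, b z = b (nz z)) : Integrable (II GG b) := by
  obtain ⟨C, hC⟩ := isCompact_M1.exists_bound_of_continuousOn (hb.mono M1_subset)
  have hcont : ContinuousOn (II GG b) X1.U := by
    have h1 : ContinuousOn (fun z => mulB A (GG z) (b z)) X1.U :=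
      ((mulB A).continuous.comp_continuousOn hGc).clm_apply hb
    exact continuous_expnn.continuousOn.smul h1
  have hm : AEStronglyMeasurable (II GG b) volume := by
    rw [← vol_restrict hqum]
    exact hcont.aestronglyMeasurable isOpen_U1.measurableSet
  refine Integrable.mono' (hqum.2.2.2.2.2.2.mul_const C) hm ?_
  filter_upwards [ae_mem_U hqum] with z hz
  have h1 : ‖b z‖ ≤ C := by
    rw [hbn z hz]
    exact hC _ (nz_mem hz)
  have h2 : ‖mulF (GG z) (b z)‖ ≤ 1 * C :=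
    (norm_mulF_le _ _).trans (mul_le_mul (norm_GG_le hGG hz) h1 (norm_nonneg _) zero_le_one)
  unfold II
  rw [norm_smul, Real.norm_eq_abs, abs_of_nonneg (Real.exp_nonneg _)]
  rw [one_mul] at h2
  exact mul_le_mul_of_nonneg_left h2 (Real.exp_nonneg _)

theorem int_II (hqua : QuaStmt) (hqum : QumStmt) (hrho : RhoStmt)
    {δ : Fin 3 → ℝ} (hδ : Ad δ)
    {GG : E6 → C(M1, ℝ)} (hGG : ∀ z ∈ X1.U, ∀ w : M1, GG z w = Gk δ z w)
    (hGc : ContinuousOn GG X1.U) {b : E6 → A} (hb : ContinuousOn b X1.U)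
    (hbn : ∀ z ∈ X1.U, b z = b (nz z)) (w : M1) :
    (∫ z, II GG b z) w = ∫ g, rho δ g • b (qm g w) := by
  have hI := II_integrable hqum hGG hGc hb hbn
  obtain ⟨_, _, _, _, _, _, _, hr⟩ := hrho δ hδ
  rw [ContinuousMap.integral_apply hI w]
  have hae : (fun z => II GG b z w) =ᵐ[volume]
      fun z => rho δ (qm z (cq w)) • b z := by
    filter_upwards [ae_mem_U hqum] with z hz
    rw [II_apply, hr z w w.2, hGG z hz w, smul_smul, mul_comm]
  rw [integral_congr_ae hae]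
  have hmp := hqum.1 w w.2
  have hF : AEStronglyMeasurable (fun z => rho δ (qm z (cq w)) • b z)
      (Measure.map (fun g : E6 => qm g w) volume) := by
    rw [hmp.map_eq]
    have h1 : Integrable (fun z => II GG b z w) :=
      (ContinuousMap.evalCLM ℝ w).integrable_comp hI
    exact h1.aestronglyMeasurable.congr hae
  calc ∫ z, rho δ (qm z (cq w)) • b z
      = ∫ z, rho δ (qm z (cq w)) • b z ∂(Measure.map (fun g : E6 => qm g w) volume) := by
        rw [hmp.map_eq]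
    _ = ∫ g, rho δ (qm (qm g w) (cq w)) • b (qm g w) :=
        integral_map hmp.measurable.aemeasurable hF
    _ = ∫ g, rho δ g • b (qm g w) := by
        refine integral_congr_ae (Eventually.of_forall fun g => ?_)
        show rho δ (qm (qm g w) (cq w)) • b (qm g w) = rho δ g • b (qm g w)
        rw [qm_cq hqua w.2]

theorem core (hqua : QuaStmt) (hqum : QumStmt) (hrho : RhoStmt)
    {δ : Fin 3 → ℝ} (hδ : Ad δ)
    {GG : E6 → C(M1, ℝ)} (hGG : ∀ z ∈ X1.U, ∀ w : M1, GG z w = Gk δ z w)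
    (hGc : ContinuousOn GG X1.U) {b : E6 → A} (hb : ContinuousOn b X1.U)
    (hbn : ∀ z ∈ X1.U, b z = b (nz z)) (T : C(M1, A) → ℝ)
    (hadd : ∀ x y, T (x + y) = T x + T y) (hsmul : ∀ (c : ℝ) x, T (c • x) = c * T x)
    (hcont : Continuous T) (F : C(M1, A))
    (hF : ∀ w : M1, F w = (Zc δ)⁻¹ • ∫ g, rho δ g • b (qm g w)) :
    (Zc δ)⁻¹ * ∫ z, Real.exp (-∑ i, nn z i) * T (mulF (GG z) (b z)) = T F := by
  let TN : C(M1, A) →L[ℝ] ℝ := ⟨⟨⟨T, hadd⟩, hsmul⟩, hcont⟩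
  have hI := II_integrable hqum hGG hGc hb hbn
  have h1 : ∫ z, Real.exp (-∑ i, nn z i) * T (mulF (GG z) (b z)) = TN (∫ z, II GG b z) := by
    rw [← ContinuousLinearMap.integral_comp_comm TN hI]
    refine integral_congr_ae (Eventually.of_forall fun z => ?_)
    exact (hsmul _ _).symm
  have h2 : F = (Zc δ)⁻¹ • ∫ z, II GG b z := by
    ext1 w
    rw [hF w, ← int_II hqua hqum hrho hδ hGG hGc hb hbn w]
    rfl
  rw [h1, h2]
  exact (hsmul _ _).symm

end core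

theorem smul_comp {l : ℕ} (r : ℝ) (a a' : Alt 3 l) (R : C3 →L[ℝ] C3)
    (h : a'.compContinuousLinearMap R = a) :
    r • a = (r • a').compContinuousLinearMap R := by
  rw [← h]
  rfl

theorem eqv_psi (hdua : DuaStmt) {k l : ℕ} (h : k + l = 6) (δ : Fin 3 → ℝ)
    (GG : E6 → C(M1, ℝ)) (hGG : ∀ z ∈ X1.U, ∀ w : M1, GG z w = Gk δ z w)
    (Tt : C(M1, Alt 3 l) → ℝ)
    (hTt : ∀ c : C3, (∀ j, ‖c j‖ = 1) → ∀ Ψ Ψ' : C(M1, Alt 3 l),
      (∀ w w' : M1, (w' : E6) = X1.act c w → Ψ' w =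
        (Ψ w').compContinuousLinearMap ((rot3 fun j => c j ^ 2).restrictScalars ℝ)) →
      Tt Ψ' = Tt Ψ) {z : E6} (hz : z ∈ X1.U) {c : C3} (hc : ∀ j, c j ≠ 0) (v : Fin k → C3) :
    Tt (mulF (GG (X1.act c z)) (iv h v)) = Tt (mulF (GG z)
      (iv h fun i => rot3 (fun j => (starRingEnd ℂ) (c j) / c j) (v i))) := by
  refine hTt (ph c) (norm_ph hc) _ _ fun w w' hw' => ?_
  have hn : ∀ j, ‖ph c j ^ 2‖ = 1 := fun j => by rw [norm_pow, norm_ph hc, one_pow]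
  have h2 := (hdua k l h).2.2 (fun j => ph c j ^ 2) hn
    (fun i => rot3 (fun j => (starRingEnd ℂ) (c j) / c j) (v i))
  have h3 : (fun i => rot3 (fun j => (starRingEnd ℂ) (ph c j ^ 2))
      (rot3 (fun j => (starRingEnd ℂ) (c j) / c j) (v i))) = v := by
    funext i j
    rw [rot3_apply, rot3_apply, ← mul_assoc, ← ph_sq hc j]
    have h4 : (starRingEnd ℂ) (ph c j ^ 2) * (ph c j ^ 2) = 1 := by
      rw [Complex.conj_mul', hn j]
      norm_num
    rw [h4, one_mul]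
  rw [h3] at h2
  have h5 : GG (X1.act c z) w = GG z w' := by
    rw [hGG _ ((act1_mem_U hc z).mpr hz), hGG _ hz, Gk_act δ hc, hw']
  rw [mulF_apply, mulF_apply, h5]
  exact smul_comp _ _ _ _ h2

/-- EXI -/
theorem exi (_hfrm : FrmStmt) (hcpt : CptStmt) (hqua : QuaStmt) (hqum : QumStmt)
    (hrho : RhoStmt) (hdua : DuaStmt) (hprf : PrfStmt) (havf : AvfStmt) (hsmg : SmgStmt)
    (hext : ExtStmt) : ExiStmt := by
  intro δ hδ p q hpq T hT
  have hkl : 2 * p + 2 * q = 6 := by omega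
  obtain ⟨Tt, hTt1, hTt2⟩ := hext q T hT
  obtain ⟨GG, hGG, hGs⟩ := hsmg δ hδ
  obtain ⟨⟨D, hD⟩, hdu, _⟩ := hdua (2 * p) (2 * q) hkl
  obtain ⟨P, hP⟩ := exists_phi (A := Alt 3 (2 * q)) D (fun x => Tt x)
    (fun x y => map_add Tt x y) (fun c x => map_smul Tt c x) Tt.continuous
  let c0 : ℝ := Real.pi ^ 3 * (Zc δ)⁻¹
  let Ψ : E6 → Alt 3 (2 * p) := fun z => c0 • P (GG z)
  have hΨ : ∀ z v, Ψ z v = c0 * Tt (mulF (GG z) (iv hkl v)) := by
    intro z v
    show c0 * P (GG z) v = _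
    rw [hP, hD]
  have hΨs : ContDiffOn ℝ ((⊤ : ℕ∞) : WithTop ℕ∞) Ψ X1.U :=
    (P.contDiff.comp_contDiffOn hGs).const_smul c0
  have hEq : Eqv Ψ := by
    intro z hz c hc
    ext v
    rw [hΨ]
    show _ = Ψ z (fun i => rot3 (fun j => (starRingEnd ℂ) (c j) / c j) (v i))
    rw [hΨ, eqv_psi hdua hkl δ GG hGG (fun x => Tt x) hTt2 hz hc]
  have hKs : ContDiffOn ℝ ((⊤ : ℕ∞) : WithTop ℕ∞) (ofc Ψ) X1.U :=
    hcpt.2.2.2.1 (2 * p) ⊤ Ψ hΨs
  obtain ⟨hKb, hKc⟩ := hcpt.2.1 (2 * p) Ψ hEq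
  have hK1 : ∀ z ∈ X1.U, (toF (ofc Ψ)).1 z = ofc Ψ z := fun z hz =>
    toF_apply hKs.continuousOn hKb hz
  refine ⟨toF (ofc Ψ), hKs.congr hK1, fun β => ?_⟩
  obtain ⟨_, _, hpair⟩ := hprf (2 * p) (2 * q) hkl (toF (ofc Ψ)).1 β.1 (toF (ofc Ψ)).2.1
    (toF (ofc Ψ)).2.2.1 β.2.1 β.2.2.1
  have hprw : ∀ z ∈ X1.U, prw (toF (ofc Ψ)).1 β.1 z =
      c0 * Tt (mulF (GG z) (cmp β.1 z)) := by
    intro z hz
    unfold prw
    have h1 : cmp (toF (ofc Ψ)).1 z = Ψ z := (cmp_congr (hK1 z hz)).trans (hKc z hz)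
    rw [h1]
    exact hdu
      { toFun := fun ψ => c0 * Tt (mulF (GG z) ψ)
        map_add' := fun ψ φ => by
          have h2 : mulF (GG z) (ψ + φ) = mulF (GG z) ψ + mulF (GG z) φ := by
            ext1 w
            exact smul_add _ _ _
          rw [h2, map_add, mul_add]
        map_smul' := fun c ψ => by
          have h2 : mulF (GG z) (c • ψ) = c • mulF (GG z) ψ := by
            ext1 w
            exact smul_comm _ _ _
          rw [h2, map_smul, smul_eq_mul, RingHom.id_apply, smul_eq_mul]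
          ring } (Ψ z) (fun v => hΨ z v) (cmp β.1 z)
  obtain ⟨_, hAc, hAb, hcm, _⟩ := havf δ hδ (2 * q) β.1 β.2.1 β.2.2.1
  have hAcc : ContinuousOn (cmp (Av δ β.1)) X1.U := cmp_cont hcpt hAc
  let F : C(M1, Alt 3 (2 * q)) := ⟨fun w => cmp (Av δ β.1) w,
    hAcc.comp_continuous continuous_subtype_val fun w => M1_subset w.2⟩
  have hF : ∀ w : M1, F w = (Zc δ)⁻¹ • ∫ g, rho δ g • cmp β.1 (qm g w) := fun w =>
    (hcm w (M1_subset w.2)).2
  have hcore : (Zc δ)⁻¹ * ∫ z, Real.exp (-∑ i, nn z i) * Tt (mulF (GG z) (cmp β.1 z)) = Tt F :=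
    core (A := Alt 3 (2 * q)) hqua hqum hrho hδ hGG hGs.continuousOn
      (cmp_cont hcpt β.2.1) (fun z hz => hcpt.2.2.2.2.2.2 (2 * q) β.1 β.2.2.1 z hz)
      (fun x => Tt x) (fun x y => map_add Tt x y) (fun c x => map_smul Tt c x) Tt.continuous
      F hF
  have hFT : Tt F = T (toF (Av δ β.1)) := by
    refine hTt1 (toF (Av δ β.1)) F fun w => ?_
    exact (cmp_congr (toF_apply hAc hAb (M1_subset w.2))).symm
  have h1 : ∫ z, Real.exp (-∑ i, nn z i) * prw (toF (ofc Ψ)).1 β.1 z =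
      c0 * ∫ z, Real.exp (-∑ i, nn z i) * Tt (mulF (GG z) (cmp β.1 z)) := by
    rw [← integral_const_mul]
    refine integral_congr_ae ?_
    filter_upwards [ae_mem_U hqum] with z hz
    rw [hprw z hz]
    ring
  have hpi : (Real.pi ^ 3 : ℝ) ≠ 0 := pow_ne_zero _ Real.pi_ne_zero
  rw [hpair, h1, ← hFT, ← hcore]
  show (Real.pi ^ 3)⁻¹ * (Real.pi ^ 3 * (Zc δ)⁻¹ * _) = _
  rw [mul_assoc (Real.pi ^ 3), inv_mul_cancel_left₀ hpi]

end Pool.Agent.SIQ.H4E
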