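import Pool.Agent.Helper15_SIQ.Stmts
import Pool.Agent.Helper50_SIU.Lnk

/-!
# MP_021b97_an, Q1: module FPR
-/

set_option autoImplicit false

open MeasureTheory Filter Topology

namespace Pool.Agent.SIQ.H4

open Pool.Agent.SIU Pool.Agent.SIQ

/-! ### forms of degree zero -/

theorem wedge_deg0 {N k l : ℕ} (hl : l = 0) (a : Alt N k) (b : Alt N l)
    (v : Fin (k + l) → Fin N → ℂ) (w : Fin l → Fin N → ℂ) :
    wedge a b v = a (fun i => v (Fin.castAdd l i)) * b w := by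
  subst hl
  rw [H50.wedge_apply]
  have hb : ∀ u u' : Fin 0 → Fin N → ℂ, b u = b u' := fun u u' => by
    rw [Subsingleton.elim u u']
  have h1 : ∀ σ : Equiv.Perm (Fin (k + 0)), H50.sg σ * (a (fun i => v (σ (Fin.castAdd 0 i))) *
      b (fun j => v (σ (Fin.natAdd k j)))) = a (fun i => v (Fin.castAdd 0 i)) * b w := by
    intro σ
    have h2 : a (fun i => v (σ (Fin.castAdd 0 i))) =
        H50.sg σ * a (fun i => v (Fin.castAdd 0 i)) :=
      H50.alt_perm a (fun i => v i) σ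
    rw [h2, hb _ w, ← mul_assoc, ← mul_assoc, H50.sg_sq, one_mul]
  rw [Finset.sum_congr rfl fun σ _ => h1 σ, Finset.sum_const, Finset.card_univ,
    Fintype.card_perm, Fintype.card_fin, nsmul_eq_mul, Nat.factorial_zero, mul_one,
    ← mul_assoc]
  have hk : ((k + 0).factorial : ℝ) ≠ 0 := by positivity
  have hk' : ((k.factorial : ℕ) : ℝ)⁻¹ * ((k + 0).factorial : ℝ) = 1 := inv_mul_cancel₀ hk
  rw [hk', one_mul]

theorem cst_smul (N : ℕ) (c : ℝ) : cst N c = c • cst N 1 := by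
  apply ContinuousAlternatingMap.ext
  intro v
  show c = c * 1
  rw [mul_one]

/-- the `0`-form of a function -/
noncomputable def zf (f : E6 → ℝ) (z : E6) : Alt 6 (2 * 0) := cst 6 (f z)

theorem zf_apply (f : E6 → ℝ) (z : E6) (v : Fin (2 * 0) → E6) : zf f z v = f z := rfl

theorem zf_eq (f : E6 → ℝ) : zf f = fun z => f z • (cst 6 1 : Alt 6 (2 * 0)) := by
  funext z
  exact cst_smul 6 (f z)

theorem zf_cont {f : E6 → ℝ} (hf : ContinuousOn f X1.U) : ContinuousOn (zf f) X1.U := by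
  rw [zf_eq]
  exact hf.smul continuousOn_const

theorem zf_smooth {f : E6 → ℝ} (hf : ContDiffOn ℝ ((⊤ : ℕ∞) : WithTop ℕ∞) f X1.U) :
    X1.Smooth (zf f) := by
  unfold Toric.Smooth
  rw [zf_eq]
  exact hf.smul contDiffOn_const

theorem zf_basic {f : E6 → ℝ} (hf : ∀ z ∈ X1.U, ∀ c : C3, (∀ j, c j ≠ 0) →
    f (X1.act c z) = f z) : X1.BasicOn X1.U (zf f) := by
  refine ⟨fun z hz c hc v => ?_, fun z _ v i _ => ?_⟩
  · rw [zf_apply, zf_apply]
    exact hf z hz c hc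
  · exact i.elim0

theorem stdb_castAdd (n k l : ℕ) : (fun i => stdb n (k + l) (Fin.castAdd l i)) = stdb n k := rfl

/-! ### be2 -/

theorem be2_eq : be2 = zf (fun z => ‖z 3‖ ^ 2 / nn z 1) := rfl

theorem act3 (c : C3) (z : E6) : X1.act c z 3 = c 1 * z 3 := by rw [act1_eq]; rfl
theorem act0 (c : C3) (z : E6) : X1.act c z 0 = c 0 * z 0 := by rw [act1_eq]; rfl
theorem act1' (c : C3) (z : E6) : X1.act c z 1 = c 0 * z 1 := by rw [act1_eq]; rfl
theorem act2 (c : C3) (z : E6) : X1.act c z 2 = c 1 * z 2 := by rw [act1_eq]; rfl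

theorem be2_basic : X1.BasicOn X1.U be2 := by
  rw [be2_eq]
  refine zf_basic fun z hz c hc => ?_
  rw [act3, nn_act, norm_mul, mul_pow]
  have h : ‖c 1‖ ^ 2 ≠ 0 := pow_ne_zero _ (norm_ne_zero_iff.mpr (hc 1))
  rw [mul_div_mul_left _ _ h]

theorem contDiff_nsq (m : Fin 6) : ContDiff ℝ ((⊤ : ℕ∞) : WithTop ℕ∞)
    (fun z : E6 => ‖z m‖ ^ 2) :=
  (contDiff_apply ℝ ℂ m).norm_sq ℝ

theorem contDiff_nn (i : Fin 3) : ContDiff ℝ ((⊤ : ℕ∞) : WithTop ℕ∞)
    (fun z : E6 => nn z i) := by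
  unfold nn
  exact (contDiff_nsq _).add (contDiff_nsq _)

theorem be2_smooth : X1.Smooth be2 := by
  rw [be2_eq]
  refine zf_smooth ?_
  exact (contDiff_nsq 3).contDiffOn.div (contDiff_nn 1).contDiffOn
    fun z hz => ((mem_U1' z).mp hz 1).ne'

/-! ### the functions `gam` -/

/-- the regularised functions -/
noncomputable def gam (m : ℕ) (z : E6) : ℝ :=
  ‖z 0 * z 3‖ ^ 2 / (‖z 0 * z 3‖ ^ 2 + ‖z 1 * z 2‖ ^ 2 + nn z 0 * nn z 1 / ((m : ℝ) + 1))

theorem gam_den_pos (m : ℕ) {z : E6} (hz : z ∈ X1.U) :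
    0 < ‖z 0 * z 3‖ ^ 2 + ‖z 1 * z 2‖ ^ 2 + nn z 0 * nn z 1 / ((m : ℝ) + 1) := by
  have h0 := (mem_U1' z).mp hz 0
  have h1 := (mem_U1' z).mp hz 1
  positivity

theorem gam_cont (m : ℕ) : ContinuousOn (gam m) X1.U := by
  unfold gam
  refine ContinuousOn.div ?_ ?_ fun z hz => (gam_den_pos m hz).ne'
  · fun_prop
  · have h0 := continuous_nn 0
    have h1 := continuous_nn 1
    refine Continuous.continuousOn ?_
    exact (by fun_prop : Continuous fun z : E6 => ‖z 0 * z 3‖ ^ 2 + ‖z 1 * z 2‖ ^ 2).add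
      ((h0.mul h1).div_const _)

theorem gam_inv (m : ℕ) : ∀ z ∈ X1.U, ∀ c : C3, (∀ j, c j ≠ 0) →
    gam m (X1.act c z) = gam m z := by
  intro z hz c hc
  unfold gam
  rw [act0, act3, act1', act2, nn_act, nn_act]
  have e1 : ‖c 0 * z 0 * (c 1 * z 3)‖ ^ 2 = (‖c 0‖ ^ 2 * ‖c 1‖ ^ 2) * ‖z 0 * z 3‖ ^ 2 := by
    rw [norm_mul, norm_mul, norm_mul, norm_mul]; ring
  have e2 : ‖c 0 * z 1 * (c 1 * z 2)‖ ^ 2 = (‖c 0‖ ^ 2 * ‖c 1‖ ^ 2) * ‖z 1 * z 2‖ ^ 2 := by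
    rw [norm_mul, norm_mul, norm_mul, norm_mul]; ring
  have e3 : ‖c 0‖ ^ 2 * nn z 0 * (‖c 1‖ ^ 2 * nn z 1) / ((m : ℝ) + 1) =
      (‖c 0‖ ^ 2 * ‖c 1‖ ^ 2) * (nn z 0 * nn z 1 / ((m : ℝ) + 1)) := by ring
  rw [e1, e2, e3, ← mul_add, ← mul_add]
  have h : ‖c 0‖ ^ 2 * ‖c 1‖ ^ 2 ≠ 0 :=
    mul_ne_zero (pow_ne_zero _ (norm_ne_zero_iff.mpr (hc 0)))
      (pow_ne_zero _ (norm_ne_zero_iff.mpr (hc 1)))
  rw [mul_div_mul_left _ _ h]

/-- `a / (a + b + c / (m + 1)) → a / (a + b)` for nonnegative numbers -/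
theorem tend_quot {a b c : ℝ} (ha : 0 ≤ a) (hb : 0 ≤ b) (_hc : 0 ≤ c) :
    Tendsto (fun m : ℕ => a / (a + b + c / ((m : ℝ) + 1))) atTop (𝓝 (a / (a + b))) := by
  by_cases h : a + b = 0
  · have ha0 : a = 0 := by linarith
    subst ha0
    simp
  · have h1 : Tendsto (fun m : ℕ => c / ((m : ℝ) + 1)) atTop (𝓝 0) := by
      have := (tendsto_one_div_add_atTop_nhds_zero_nat (𝕜 := ℝ)).const_mul c
      rw [mul_zero] at this
      refine this.congr fun m => ?_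
      ring
    have h2 : Tendsto (fun m : ℕ => a + b + c / ((m : ℝ) + 1)) atTop (𝓝 (a + b)) := by
      have := h1.const_add (a + b)
      rwa [add_zero] at this
    exact tendsto_const_nhds.div h2 h

theorem quot_le {a b c : ℝ} (ha : 0 ≤ a) (hb : 0 ≤ b) (_hc : 0 ≤ c) :
    |a / (a + b + c)| ≤ 1 := by
  rw [abs_of_nonneg (by positivity)]
  apply div_le_one_of_le₀ (by linarith) (by positivity)

/-! ### determinants -/

theorem finrank_C3 : Module.finrank ℝ C3 = 6 := by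
  simp [Module.finrank_pi_fintype, Complex.finrank_real_complex]

theorem top_det {k : ℕ} (hk : k = 6) (Ω : Alt 3 k) (L : C3 →ₗ[ℝ] C3) (v : Fin k → C3) :
    Ω (fun i => L (v i)) = LinearMap.det L * Ω v := by
  subst hk
  have e := Module.finBasisOfFinrankEq ℝ C3 finrank_C3
  have h := AlternatingMap.eq_smul_basis_det e Ω.toAlternatingMap
  have h1 : ∀ w : Fin 6 → C3, Ω w = Ω e * e.det w := by
    intro w
    have := congrArg (fun f => f w) h
    simpa using this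
  have h2 := e.det_comp L v
  rw [h1, h1 v]
  have h3 : (fun i => L (v i)) = L ∘ v := rfl
  rw [h3, h2]; ring

/-! ### the map -/

/-- `f1` in the chart -/
noncomputable def F1 (x : C3) : C3 := ![x 0, x 0 * x 1, x 2]

/-- its Jacobian matrix -/
noncomputable def FM (x : C3) : Matrix (Fin 3) (Fin 3) ℂ := !![1, 0, 0; x 1, x 0, 0; 0, 0, 1]

/-- its derivative -/
noncomputable def FD (x : C3) : C3 →L[ℂ] C3 := LinearMap.toContinuousLinearMap (Matrix.toLin' (FM x))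

theorem FD_apply (x v : C3) : FD x v = ![v 0, x 1 * v 0 + x 0 * v 1, v 2] := by
  funext i
  show Matrix.toLin' (FM x) v i = _
  rw [Matrix.toLin'_apply, Matrix.mulVec, dotProduct, Fin.sum_univ_three]
  fin_cases i <;> simp [FM]

theorem hasFDerivAt_F1 (x : C3) : HasFDerivAt F1 ((FD x).restrictScalars ℝ) x := by
  rw [hasFDerivAt_pi']
  have hp : ∀ i : Fin 3, HasFDerivAt (fun y : C3 => y i)
      ((ContinuousLinearMap.proj (R := ℝ) (φ := fun _ : Fin 3 => ℂ) i)) x := fun i =>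
    hasFDerivAt_apply i x
  intro i
  fin_cases i
  · refine (hp 0).congr_fderiv ?_
    ext v
    show v 0 = FD x v 0
    rw [FD_apply]; rfl
  · have h := HasFDerivAt.fun_mul (hp 0) (hp 1)
    refine h.congr_fderiv ?_
    ext v
    show x 0 * v 1 + x 1 * v 0 = FD x v 1
    rw [FD_apply]
    show x 0 * v 1 + x 1 * v 0 = x 1 * v 0 + x 0 * v 1
    ring
  · refine (hp 2).congr_fderiv ?_
    ext v
    show v 2 = FD x v 2
    rw [FD_apply]; rfl

theorem det_FD (x : C3) : LinearMap.det (((FD x).restrictScalars ℝ : C3 →L[ℝ] C3) : C3 →ₗ[ℝ] C3) =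
    ‖x 0‖ ^ 2 := by
  have h1 : LinearMap.det (((FD x).restrictScalars ℝ : C3 →L[ℝ] C3) : C3 →ₗ[ℝ] C3) =
      LinearMap.det ((Matrix.toLin' (FM x)).restrictScalars ℝ) := rfl
  rw [h1, LinearMap.det_restrictScalars, LinearMap.det_toLin', Algebra.norm_complex_apply,
    Complex.normSq_eq_norm_sq]
  have h2 : (FM x).det = x 0 := by
    rw [Matrix.det_fin_three]
    simp [FM]
  rw [h2]

theorem f1L_eq (x : C3) : f1L x = X1.σ (F1 x) := by
  rw [sigma1_eq]; rfl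

theorem fderiv_f1L (x : C3) : fderiv ℝ f1L x =
    (inc1.restrictScalars ℝ).comp ((FD x).restrictScalars ℝ) := by
  have h : f1L = X1.σ ∘ F1 := funext f1L_eq
  rw [h]
  exact ((hasFDerivAt_sigma1 (F1 x)).comp x (hasFDerivAt_F1 x)).fderiv

theorem pull_f1L {k : ℕ} (hk : k = 6) (K : E6 → Alt 6 k) (x : C3) (v : Fin k → C3) :
    Toric.pull f1L K x v = ‖x 0‖ ^ 2 * Toric.pull X1.σ K (F1 x) v := by
  have h := top_det hk (Toric.pull X1.σ K (F1 x)) (((FD x).restrictScalars ℝ : C3 →L[ℝ] C3) :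
    C3 →ₗ[ℝ] C3) v
  rw [det_FD] at h
  rw [← h, pull_sigma1]
  unfold Toric.pull
  rw [fderiv_f1L, f1L_eq]
  rfl

/-! ### change of variables -/

theorem null_x0 : volume {x : C3 | x 0 ≠ 0}ᶜ = 0 := by
  have h : {x : C3 | x 0 ≠ 0}ᶜ = ((LinearMap.ker ((LinearMap.proj 0 : C3 →ₗ[ℂ] ℂ).restrictScalars ℝ) :
      Submodule ℝ C3) : Set C3) := by
    ext x
    simp
  rw [h]
  apply Measure.addHaar_submodule
  intro htop
  have h1 : (fun _ => 1 : C3) ∈ LinearMap.ker ((LinearMap.proj 0 : C3 →ₗ[ℂ] ℂ).restrictScalars ℝ) := by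
    rw [htop]; trivial
  rw [LinearMap.mem_ker] at h1
  exact one_ne_zero h1

theorem meas_x0 : MeasurableSet {x : C3 | x 0 ≠ 0} :=
  (isOpen_ne_fun (continuous_apply 0) continuous_const).measurableSet

theorem setInt_x0 (g : C3 → ℝ) : ∫ x in {x : C3 | x 0 ≠ 0}, g x = ∫ x, g x := by
  have h : (volume.restrict {x : C3 | x 0 ≠ 0}) = volume := by
    rw [Measure.restrict_eq_self_of_ae_mem]
    rw [ae_iff]
    exact null_x0
  rw [h]

theorem image_F1 : F1 '' {x : C3 | x 0 ≠ 0} = {x : C3 | x 0 ≠ 0} := by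
  ext y
  constructor
  · rintro ⟨x, hx, rfl⟩
    exact hx
  · intro hy
    have hy' : y 0 ≠ 0 := hy
    refine ⟨![y 0, y 1 / y 0, y 2], hy, ?_⟩
    funext i
    fin_cases i
    · rfl
    · show y 0 * (y 1 / y 0) = y 1
      field_simp
    · rfl

theorem injOn_F1 : Set.InjOn F1 {x : C3 | x 0 ≠ 0} := by
  intro x hx y _ hxy
  have hx' : x 0 ≠ 0 := hx
  have h0 : x 0 = y 0 := congrFun hxy 0
  have h1 : x 0 * x 1 = y 0 * y 1 := congrFun hxy 1
  have h2 : x 2 = y 2 := congrFun hxy 2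
  funext i
  fin_cases i
  · exact h0
  · rw [← h0] at h1
    exact mul_left_cancel₀ hx' h1
  · exact h2

theorem chg_F1 (g : C3 → ℝ) : ∫ x : C3, ‖x 0‖ ^ 2 * g (F1 x) = ∫ y, g y := by
  have h := integral_image_eq_integral_abs_det_fderiv_smul volume meas_x0
    (fun x _ => (hasFDerivAt_F1 x).hasFDerivWithinAt) injOn_F1 g
  rw [image_F1, setInt_x0] at h
  rw [h, ← setInt_x0]
  refine setIntegral_congr_fun meas_x0 fun x _ => ?_
  have h1 : ((FD x).restrictScalars ℝ : C3 →L[ℝ] C3).det = ‖x 0‖ ^ 2 := det_FD x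
  show ‖x 0‖ ^ 2 * g (F1 x) = |((FD x).restrictScalars ℝ : C3 →L[ℝ] C3).det| • g (F1 x)
  rw [h1, abs_of_nonneg (by positivity), smul_eq_mul]

/-! ### the points of the segment -/

theorem pt1_mem (t : ℝ) : pt1 t ∈ X1.U := by
  rw [mem_U1]
  intro i
  right
  fin_cases i <;> exact one_ne_zero

theorem nn_pt1_0 (t : ℝ) : nn (pt1 t) 0 = 1 := by
  show ‖(0 : ℂ)‖ ^ 2 + ‖(1 : ℂ)‖ ^ 2 = 1
  simp

theorem nn_pt1_1 (t : ℝ) : nn (pt1 t) 1 = 1 := by
  show ‖(0 : ℂ)‖ ^ 2 + ‖(1 : ℂ)‖ ^ 2 = 1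
  simp

/-- the values of `gam` on the orbits of the points of the segment -/
noncomputable def gamg (m : ℕ) (g : E6) : ℝ :=
  (‖g 1‖ * ‖g 2‖) ^ 2 / ((‖g 1‖ * ‖g 2‖) ^ 2 + (‖g 0‖ * ‖g 3‖) ^ 2 +
    nn g 0 * nn g 1 / ((m : ℝ) + 1))

theorem gam_pt1 (hqua : QuaStmt) (m : ℕ) (g : E6) (t : ℝ) : gam m (qm g (pt1 t)) = gamg m g := by
  have e0 : qm g (pt1 t) 0 = - (starRingEnd ℂ) (g 1) := by
    show g 0 * 0 - (starRingEnd ℂ) (g 1) * 1 = _
    ring
  have e1 : qm g (pt1 t) 1 = (starRingEnd ℂ) (g 0) := by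
    show g 1 * 0 + (starRingEnd ℂ) (g 0) * 1 = _
    ring
  have e2 : qm g (pt1 t) 2 = - (starRingEnd ℂ) (g 3) := by
    show g 2 * 0 - (starRingEnd ℂ) (g 3) * 1 = _
    ring
  have e3 : qm g (pt1 t) 3 = (starRingEnd ℂ) (g 2) := by
    show g 3 * 0 + (starRingEnd ℂ) (g 2) * 1 = _
    ring
  have hn := hqua.1
  unfold gam gamg
  rw [e0, e1, e2, e3, hn, hn, nn_pt1_0, nn_pt1_1, norm_mul, norm_mul, norm_neg, norm_neg,
    Complex.norm_conj, Complex.norm_conj, Complex.norm_conj, Complex.norm_conj, mul_one, mul_one]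

/-! ### the two sides -/

/-- the density of the top form -/
noncomputable def kap (K : E6 → Alt 6 (2 * 3)) (y : C3) : ℝ :=
  Toric.pull X1.σ K y (stdb 3 (2 * 3))

theorem wedge_kap {l : ℕ} (hl : l = 0) (a : Alt 3 (2 * 3)) (b : Alt 3 l)
    (w : Fin l → C3) : wedge a b (stdb 3 (2 * 3 + l)) = a (stdb 3 (2 * 3)) * b w := by
  rw [wedge_deg0 hl a b _ w, stdb_castAdd]

theorem pair_zf (K : E6 → Alt 6 (2 * 3)) (β : E6 → Alt 6 (2 * 0)) (f : E6 → ℝ)
    (hβ : ∀ z ∈ X1.U, β z = zf f z) :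
    X1.pair K β = ∫ y, kap K y * f (X1.σ y) := by
  unfold Toric.pair
  refine integral_congr_ae (Eventually.of_forall fun x => ?_)
  show wedge (Toric.pull X1.σ K x) (Toric.pull X1.σ β x) (stdb 3 (2 * 3 + 2 * 0)) = _
  rw [wedge_kap (l := 2 * 0) rfl _ _ (fun _ => 0)]
  unfold kap
  congr 1
  unfold Toric.pull
  rw [hβ _ (sigma1_mem_U x)]
  rfl

theorem fpair_zf (K : E6 → Alt 6 (2 * 3)) (β : E6 → Alt 6 (2 * 0)) (f : E6 → ℝ)
    (hβ : ∀ z ∈ X1.U, β z = zf f z) :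
    X1.fpair f1L K β = ∫ x, ‖x 0‖ ^ 2 * kap K (F1 x) * f (X1.σ x) := by
  unfold Toric.fpair
  refine integral_congr_ae (Eventually.of_forall fun x => ?_)
  show wedge (Toric.pull f1L K x) (Toric.pull X1.σ β x) (stdb 3 (2 * 3 + 2 * 0)) = _
  rw [wedge_kap (l := 2 * 0) rfl _ _ (fun _ => 0), pull_f1L rfl]
  unfold kap
  congr 1
  unfold Toric.pull
  rw [hβ _ (sigma1_mem_U x)]
  rfl

theorem kap_integrable (hprf : PrfStmt) (K : E6 → Alt 6 (2 * 3)) (hc : ContinuousOn K X1.U)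
    (hb : X1.BasicOn X1.U K) : Integrable (kap K) := by
  have h := (hprf (2 * 3) (2 * 0) (by norm_num) K (zf fun _ => 1) hc hb
    (zf_cont continuousOn_const) (zf_basic fun _ _ _ _ => rfl)).1
  refine h.congr (Eventually.of_forall fun x => ?_)
  show wedge (Toric.pull X1.σ K x) (Toric.pull X1.σ (zf fun _ => 1) x)
    (stdb 3 (2 * 3 + 2 * 0)) = kap K x
  rw [wedge_kap (l := 2 * 0) rfl _ _ (fun _ => 0)]
  exact mul_one _

/-- the limit function in the chart -/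
noncomputable def gamy (y : C3) : ℝ := ‖y 0‖ ^ 2 / (‖y 0‖ ^ 2 + ‖y 1‖ ^ 2)

theorem gam_sigma (m : ℕ) (y : C3) : gam m (X1.σ y) = ‖y 0‖ ^ 2 / (‖y 0‖ ^ 2 + ‖y 1‖ ^ 2 +
    (1 + ‖y 0‖ ^ 2) * (1 + ‖y 1‖ ^ 2) / ((m : ℝ) + 1)) := by
  unfold gam
  rw [nn_sigma, nn_sigma, sigma1_eq]
  have e0 : (![y 0, 1, y 1, 1, y 2, 1] : E6) 0 * (![y 0, 1, y 1, 1, y 2, 1] : E6) 3 = y 0 :=
    mul_one _
  have e1 : (![y 0, 1, y 1, 1, y 2, 1] : E6) 1 * (![y 0, 1, y 1, 1, y 2, 1] : E6) 2 = y 1 :=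
    one_mul _
  rw [e0, e1]

theorem left_lim (hprf : PrfStmt) (K : E6 → Alt 6 (2 * 3)) (hc : ContinuousOn K X1.U)
    (hb : X1.BasicOn X1.U K) :
    Tendsto (fun m : ℕ => ∫ y, kap K y * gam m (X1.σ y)) atTop (𝓝 (∫ y, kap K y * gamy y)) := by
  have hk := kap_integrable hprf K hc hb
  refine tendsto_integral_of_dominated_convergence (fun y => |kap K y|) (fun m => ?_) hk.abs
    (fun m => Eventually.of_forall fun y => ?_) (Eventually.of_forall fun y => ?_)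
  · refine hk.aestronglyMeasurable.mul ?_
    have hcs : Continuous fun y : C3 => gam m (X1.σ y) :=
      (gam_cont m).comp_continuous contDiff_sigma1.continuous sigma1_mem_U
    exact hcs.aestronglyMeasurable
  · rw [Real.norm_eq_abs, abs_mul, gam_sigma]
    have h := quot_le (a := ‖y 0‖ ^ 2) (b := ‖y 1‖ ^ 2)
      (c := (1 + ‖y 0‖ ^ 2) * (1 + ‖y 1‖ ^ 2) / ((m : ℝ) + 1)) (by positivity) (by positivity)
      (by positivity)
    calc |kap K y| * _ ≤ |kap K y| * 1 := mul_le_mul_of_nonneg_left h (abs_nonneg _)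
      _ = |kap K y| := mul_one _
  · have h : (fun m : ℕ => gam m (X1.σ y)) = fun m : ℕ => ‖y 0‖ ^ 2 / (‖y 0‖ ^ 2 + ‖y 1‖ ^ 2 +
        (1 + ‖y 0‖ ^ 2) * (1 + ‖y 1‖ ^ 2) / ((m : ℝ) + 1)) := funext fun m => gam_sigma m y
    refine Tendsto.const_mul _ ?_
    rw [h]
    exact tend_quot (by positivity) (by positivity) (by positivity)

theorem fpair_eq (K : E6 → Alt 6 (2 * 3)) (β : E6 → Alt 6 (2 * 0))
    (hβ : ∀ z ∈ X1.U, β z = be2 z) :
    X1.fpair f1L K β = ∫ y, kap K y * gamy y := by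
  rw [fpair_zf K β (fun z => ‖z 3‖ ^ 2 / nn z 1) hβ, ← chg_F1 fun y => kap K y * gamy y,
    ← setInt_x0 fun x => ‖x 0‖ ^ 2 * kap K (F1 x) * (‖X1.σ x 3‖ ^ 2 / nn (X1.σ x) 1),
    ← setInt_x0 fun x => ‖x 0‖ ^ 2 * (kap K (F1 x) * gamy (F1 x))]
  refine setIntegral_congr_fun meas_x0 fun x hx => ?_
  have hx0 : x 0 ≠ 0 := hx
  have h0 : ‖x 0‖ ^ 2 ≠ 0 := pow_ne_zero _ (norm_ne_zero_iff.mpr hx0)
  show ‖x 0‖ ^ 2 * kap K (F1 x) * (‖X1.σ x 3‖ ^ 2 / nn (X1.σ x) 1) =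
    ‖x 0‖ ^ 2 * (kap K (F1 x) * gamy (F1 x))
  have e3 : X1.σ x 3 = 1 := by rw [sigma1_eq]; rfl
  have eF : gamy (F1 x) = 1 / (1 + ‖x 1‖ ^ 2) := by
    show ‖x 0‖ ^ 2 / (‖x 0‖ ^ 2 + ‖x 0 * x 1‖ ^ 2) = _
    rw [norm_mul, mul_pow]
    have h1 : ‖x 0‖ ^ 2 + ‖x 0‖ ^ 2 * ‖x 1‖ ^ 2 = ‖x 0‖ ^ 2 * (1 + ‖x 1‖ ^ 2) := by ring
    rw [h1]
    have h2 : (1 + ‖x 1‖ ^ 2 : ℝ) ≠ 0 := by positivity
    field_simp
  rw [e3, nn_sigma, eF, norm_one]
  ring

/-- FPR -/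
theorem fpr (hqua : QuaStmt) (_hqum : QumStmt) (hrho : RhoStmt) (hprf : PrfStmt)
    (_hcht : ChtStmt) (hkkp : KkpStmt) (havf : AvfStmt) : FprStmt := by
  refine ⟨⟨be2_basic, be2_smooth⟩, fun T hT1 hTc δ hδ => ?_⟩
  have hbe : ContinuousOn be2 X1.U := be2_smooth.continuousOn
  set K := KK δ 3 0 T with hK
  have hKc : ContinuousOn K.1 X1.U := K.2.1
  have hKb : X1.BasicOn X1.U K.1 := K.2.2.1
  rw [fpair_eq K.1 (toF be2).1 fun z hz => toF_apply hbe be2_basic hz]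
  obtain ⟨_, hrb, hri, hZ, _, _, hrU, _⟩ := hrho δ hδ
  -- the pairings with `gam m`
  have key : ∀ m : ℕ, ∫ y, kap K.1 y * gam m (X1.σ y) =
      (Zc δ)⁻¹ * ∫ g : E6, rho δ g * gamg m g := by
    intro m
    have hgc := zf_cont (gam_cont m)
    have hgb := zf_basic (gam_inv m)
    set β : X1.Form (2 * 0) := toF (zf (gam m)) with hβ
    have hβz : ∀ z ∈ X1.U, β.1 z = zf (gam m) z := fun z hz => toF_apply hgc hgb hz
    rw [← pair_zf K.1 β.1 (gam m) hβz]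
    have h1 : X1.pair K.1 β.1 = T (toF (Av δ β.1)) :=
      (hkkp δ hδ 3 0 rfl T hTc).2.1 β
    obtain ⟨hint, hAc, hAb, _, _⟩ := havf δ hδ (2 * 0) β.1 β.2.1 β.2.2.1
    rw [h1, hT1]
    have h2 : ∀ t : ℝ, (toF (Av δ β.1)).1 (pt1 t) (fun _ => 0) =
        (Zc δ)⁻¹ * ∫ g : E6, rho δ g * gamg m g := by
      intro t
      rw [toF_apply hAc hAb (pt1_mem t)]
      unfold Av
      show (Zc δ)⁻¹ • ((∫ g : E6, rho δ g • gs g β.1 (pt1 t)) (fun _ => 0)) = _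
      have h3 : (∫ g : E6, rho δ g • gs g β.1 (pt1 t)) (fun _ => 0) =
          ∫ g : E6, (rho δ g • gs g β.1 (pt1 t)) (fun _ => 0) :=
        ((ContinuousAlternatingMap.apply ℝ E6 ℝ (fun _ : Fin (2 * 0) => (0 : E6))).integral_comp_comm
          (hint (pt1 t) (pt1_mem t))).symm
      rw [h3, smul_eq_mul]
      congr 1
      refine integral_congr_ae (Eventually.of_forall fun g => ?_)
      show rho δ g * gs g β.1 (pt1 t) (fun _ => 0) = rho δ g * gamg m g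
      by_cases hg : rho δ g = 0
      · rw [hg, zero_mul, zero_mul]
      · have hgU : g ∈ X1.U := (hrU g hg).1
        have hq : qm g (pt1 t) ∈ X1.U := (hqua.2.1 g (pt1 t)).mpr ⟨hgU, pt1_mem t⟩
        congr 1
        show β.1 (qm g (pt1 t)) (fun _ => qmL g 0) = gamg m g
        rw [hβz _ hq, zf_apply, gam_pt1 hqua]
    rw [setIntegral_congr_fun measurableSet_Icc fun t _ => h2 t, setIntegral_const]
    simp
  -- the right hand side
  have hright : Tendsto (fun m : ℕ => (Zc δ)⁻¹ * ∫ g : E6, rho δ g * gamg m g) atTop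
      (𝓝 (Wl δ)) := by
    unfold Wl
    refine Tendsto.const_mul _ ?_
    refine tendsto_integral_of_dominated_convergence (rho δ) (fun m => ?_) hri
      (fun m => Eventually.of_forall fun g => ?_) (Eventually.of_forall fun g => ?_)
    · refine hri.aestronglyMeasurable.mul ?_
      have hmeas : Measurable (gamg m) := by
        unfold gamg nn
        fun_prop
      exact hmeas.aestronglyMeasurable
    · have hr0 := (hrb g).1
      have h := quot_le (a := (‖g 1‖ * ‖g 2‖) ^ 2) (b := (‖g 0‖ * ‖g 3‖) ^ 2)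
        (c := nn g 0 * nn g 1 / ((m : ℝ) + 1)) (by positivity) (by positivity)
        (div_nonneg (mul_nonneg (nn_nonneg g 0) (nn_nonneg g 1)) (by positivity))
      rw [Real.norm_eq_abs, abs_mul, abs_of_nonneg hr0]
      calc rho δ g * _ ≤ rho δ g * 1 := mul_le_mul_of_nonneg_left h hr0
        _ = rho δ g := mul_one _
    · refine Tendsto.const_mul _ ?_
      exact tend_quot (by positivity) (by positivity) (mul_nonneg (nn_nonneg g 0) (nn_nonneg g 1))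
  have hleft := left_lim hprf K.1 hKc hKb
  rw [funext key] at hleft
  exact tendsto_nhds_unique hleft hright

end Pool.Agent.SIQ.H4
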